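import Pool.Agent.Helper17.SO.Stmts

set_option autoImplicit false

open Finset

namespace Pool.Agent.Helper17.SO

theorem btp_mem {u w p : ℕ} : p ∈ PP u w ↔ (u < p ∧ p ≤ w) ∧ p.Prime := by
  unfold PP
  rw [mem_filter, mem_Ioc]

/-- the product over the prime factors -/
theorem btp_tot (Q : ℕ) (hQ : 1 ≤ Q) :
    Real.exp (∑ l ∈ Q.primeFactors, 1 / (l : ℝ)) ≤ (Q : ℝ) / (Q.totient : ℝ) := by
  have hφ : 0 < (Q.totient : ℝ) := by exact_mod_cast Nat.totient_pos.2 hQ
  have hQ' : 0 < (Q : ℝ) := by exact_mod_cast hQ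
  have h1 : (Q.totient : ℝ) = Q * ∏ p ∈ Q.primeFactors, (1 - (p : ℝ)⁻¹) := by
    have h := Nat.totient_eq_mul_prod_factors Q
    have h2 : ((Q.totient : ℚ) : ℝ) =
        ((Q * ∏ p ∈ Q.primeFactors, (1 - (p : ℚ)⁻¹) : ℚ) : ℝ) := by rw [h]
    push_cast at h2
    exact h2
  have h2 : ∀ p ∈ Q.primeFactors, 0 < 1 - (p : ℝ)⁻¹ := by
    intro p hp
    have h3 : (2 : ℝ) ≤ p := by exact_mod_cast (Nat.prime_of_mem_primeFactors hp).two_le
    have h4 : (p : ℝ)⁻¹ ≤ 2⁻¹ := inv_anti₀ (by norm_num) h3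
    linarith
  have h3 : 0 < ∏ p ∈ Q.primeFactors, (1 - (p : ℝ)⁻¹) := prod_pos h2
  rw [le_div_iff₀ hφ, h1, Real.exp_sum]
  have h4 : (∏ p ∈ Q.primeFactors, Real.exp (1 / (p : ℝ))) *
      ∏ p ∈ Q.primeFactors, (1 - (p : ℝ)⁻¹) ≤ 1 := by
    rw [← prod_mul_distrib]
    refine prod_le_one (fun p hp => mul_nonneg (Real.exp_pos _).le (h2 p hp).le)
      (fun p hp => ?_)
    have h5 := Real.one_sub_le_exp_neg (p : ℝ)⁻¹
    calc Real.exp (1 / (p : ℝ)) * (1 - (p : ℝ)⁻¹) ≤
        Real.exp (1 / (p : ℝ)) * Real.exp (-(p : ℝ)⁻¹) :=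
          mul_le_mul_of_nonneg_left h5 (Real.exp_pos _).le
      _ = 1 := by rw [← Real.exp_add, one_div, add_neg_cancel, Real.exp_zero]
  calc (∏ p ∈ Q.primeFactors, Real.exp (1 / (p : ℝ))) *
        (Q * ∏ p ∈ Q.primeFactors, (1 - (p : ℝ)⁻¹)) =
      Q * ((∏ p ∈ Q.primeFactors, Real.exp (1 / (p : ℝ))) *
        ∏ p ∈ Q.primeFactors, (1 - (p : ℝ)⁻¹)) := by ring
    _ ≤ Q * 1 := mul_le_mul_of_nonneg_left h4 hQ'.le
    _ = Q := mul_one _

/-- lower bound for the sum over the sieving primes -/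
theorem btp_sum (CM : ℝ)
    (hCM : ∀ u w : ℕ, 2 ≤ u → u ≤ w → |∑ p ∈ PP u w, 1 / (p : ℝ) - LL u w| ≤ CM)
    (z Q : ℕ) (hz : 2 ≤ z) (hQ : 1 ≤ Q) :
    LL 2 z - CM - 1 - ∑ l ∈ Q.primeFactors, 1 / (l : ℝ) ≤
      ∑ l ∈ (PP 6 z).filter (fun l => ¬ l ∣ Q), 1 / (l : ℝ) := by
  have h1 := (abs_le.1 (hCM 2 z (le_refl _) hz)).1
  have h2 : ∑ l ∈ PP 2 z, 1 / (l : ℝ) ≤ ∑ l ∈ PP 6 z, 1 / (l : ℝ) + 1 := by
    have h3 : PP 2 z ⊆ PP 6 z ∪ {3, 5} := by
      intro l hl
      rw [btp_mem] at hl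
      rw [mem_union, btp_mem]
      by_cases h6 : 6 < l
      · exact Or.inl ⟨⟨h6, hl.1.2⟩, hl.2⟩
      · right
        have h7 : l = 3 ∨ l = 4 ∨ l = 5 ∨ l = 6 := by omega
        rcases h7 with h | h | h | h
        · rw [h]; simp
        · exfalso; rw [h] at hl; exact absurd hl.2 (by norm_num)
        · rw [h]; simp
        · exfalso; rw [h] at hl; exact absurd hl.2 (by norm_num)
    calc ∑ l ∈ PP 2 z, 1 / (l : ℝ) ≤ ∑ l ∈ PP 6 z ∪ {3, 5}, 1 / (l : ℝ) :=
          sum_le_sum_of_subset_of_nonneg h3 fun l _ _ => by positivity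
      _ ≤ ∑ l ∈ PP 6 z, 1 / (l : ℝ) + ∑ l ∈ ({3, 5} : Finset ℕ), 1 / (l : ℝ) := by
          rw [← sum_union_inter]
          have : 0 ≤ ∑ l ∈ PP 6 z ∩ {3, 5}, 1 / (l : ℝ) := sum_nonneg fun l _ => by positivity
          linarith
      _ ≤ _ := by
          have : ∑ l ∈ ({3, 5} : Finset ℕ), 1 / (l : ℝ) ≤ 1 := by
            rw [sum_pair (by norm_num)]
            norm_num
          linarith
  have h3 := sum_filter_add_sum_filter_not (PP 6 z) (fun l => l ∣ Q) (fun l => 1 / (l : ℝ))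
  have h4 : ∑ l ∈ (PP 6 z).filter (fun l => l ∣ Q), 1 / (l : ℝ) ≤
      ∑ l ∈ Q.primeFactors, 1 / (l : ℝ) := by
    refine sum_le_sum_of_subset_of_nonneg ?_ fun l _ _ => by positivity
    intro l hl
    rw [mem_filter, btp_mem] at hl
    exact Nat.mem_primeFactors.2 ⟨hl.1.2, hl.2, by omega⟩
  linarith

theorem st_BTP (hS : ST_SAP) (hM : ST_MER) : ST_BTP := by
  obtain ⟨b, CS, hb, hCS0, hCS⟩ := hS
  obtain ⟨CM, hCM0, hCM⟩ := hM
  obtain ⟨E, hE⟩ : ∃ E, E = CS * Real.exp (CM + 1) := ⟨_, rfl⟩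
  have hE0 : 0 < E := by rw [hE]; exact mul_pos hCS0 (Real.exp_pos _)
  obtain ⟨U0, hU0⟩ : ∃ U0 : ℕ, U0 = 2 ^ (2 * b) := ⟨_, rfl⟩
  have hl2 : 0 < Real.log 2 := Real.log_pos (by norm_num)
  refine ⟨(U0 : ℝ) ^ 3 + 2 * E * (4 * b) * (2 / Real.log 2), by positivity, ?_⟩
  intro u Q a hu hQ hQu haQ
  have hφ : 0 < (Q.totient : ℝ) := by exact_mod_cast Nat.totient_pos.2 hQ
  have hφQ : (Q.totient : ℝ) ≤ Q := by exact_mod_cast Nat.totient_le Q
  have hQleu : Q ≤ u := by nlinarith
  have hb0 : (1 : ℝ) ≤ b := by exact_mod_cast hb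
  have hC2 : 0 ≤ 2 * E * (4 * b) * (2 / Real.log 2) := by positivity
  rcases lt_or_ge u U0 with hsmall | hbig
  · -- bounded `u`
    have h1 : ∑ p ∈ (PP u (u ^ 2)).filter (fun p => p % Q = a % Q), 1 / (p : ℝ) ≤
        (U0 : ℝ) ^ 2 := by
      calc ∑ p ∈ (PP u (u ^ 2)).filter (fun p => p % Q = a % Q), 1 / (p : ℝ) ≤
          ∑ p ∈ (PP u (u ^ 2)).filter (fun p => p % Q = a % Q), (1 : ℝ) := by
            refine sum_le_sum fun p hp => ?_
            have h2 : (1 : ℝ) ≤ p := by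
              exact_mod_cast (btp_mem.1 (mem_filter.1 hp).1).2.one_lt.le
            rw [div_le_iff₀ (by linarith)]
            linarith
        _ = (((PP u (u ^ 2)).filter (fun p => p % Q = a % Q)).card : ℝ) := by
            rw [sum_const, nsmul_eq_mul, mul_one]
        _ ≤ ((u ^ 2 : ℕ) : ℝ) := by
            have h3 : ((PP u (u ^ 2)).filter (fun p => p % Q = a % Q)).card ≤ u ^ 2 := by
              calc _ ≤ (Ioc u (u ^ 2)).card :=
                    card_le_card ((filter_subset _ _).trans (filter_subset _ _))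
                _ = u ^ 2 - u := Nat.card_Ioc _ _
                _ ≤ u ^ 2 := Nat.sub_le _ _
            exact_mod_cast h3
        _ ≤ (U0 : ℝ) ^ 2 := by
            have : u ^ 2 ≤ U0 ^ 2 := Nat.pow_le_pow_left hsmall.le 2
            exact_mod_cast this
    rw [le_div_iff₀ hφ]
    have h2 : (Q.totient : ℝ) ≤ U0 := by
      refine hφQ.trans ?_
      exact_mod_cast (by omega : Q ≤ U0)
    calc (∑ p ∈ (PP u (u ^ 2)).filter (fun p => p % Q = a % Q), 1 / (p : ℝ)) * Q.totient
        ≤ (U0 : ℝ) ^ 2 * U0 := mul_le_mul h1 h2 hφ.le (by positivity)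
      _ = (U0 : ℝ) ^ 3 := by ring
      _ ≤ _ := by linarith
  · -- the sieving limit
    obtain ⟨z, hz⟩ : ∃ z, z = Nat.findGreatest (fun z => z ^ (2 * b) ≤ u) u := ⟨_, rfl⟩
    have hzP : z ^ (2 * b) ≤ u := by
      rw [hz]
      exact Nat.findGreatest_spec (P := fun z => z ^ (2 * b) ≤ u) (m := 1) (by omega)
        (by simp only [one_pow]; omega)
    have hz2 : 2 ≤ z := by
      rw [hz]
      exact Nat.le_findGreatest (by
        calc 2 ≤ u := hu
          _ = u := rfl) (by rw [← hU0]; exact hbig)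
    have hzgt : u < (z + 1) ^ (2 * b) := by
      rcases le_or_gt (z + 1) u with h | h
      · by_contra hcon
        push Not at hcon
        have h1 : z < z + 1 := Nat.lt_succ_self z
        have h2 : Nat.findGreatest (fun z => z ^ (2 * b) ≤ u) u < z + 1 := by rw [← hz]; exact h1
        exact Nat.findGreatest_is_greatest h2 h hcon
      · exact lt_of_lt_of_le h (Nat.le_self_pow (by omega) _)
    have hzu : z ≤ u := (Nat.le_self_pow (by omega) z).trans hzP
    have hzQ : z ^ b * Q ≤ u := by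
      have h1 : (z ^ b * Q) ^ 2 ≤ u ^ 2 := by
        calc (z ^ b * Q) ^ 2 = z ^ (2 * b) * Q ^ 2 := by
              rw [mul_pow, ← pow_mul, mul_comm b 2]
          _ ≤ u * u := Nat.mul_le_mul hzP hQu
          _ = u ^ 2 := by ring
      exact (Nat.pow_le_pow_iff_left (by norm_num)).1 h1
    have hlz : 0 < Real.log z := Real.log_pos (by exact_mod_cast hz2)
    have hlu : 0 < Real.log u := Real.log_pos (by exact_mod_cast hu)
    have hluz : Real.log u ≤ 4 * b * Real.log z := by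
      have h1 : Real.log u ≤ Real.log (((z + 1) ^ (2 * b) : ℕ) : ℝ) :=
        Real.log_le_log (by exact_mod_cast (by omega : 0 < u)) (by exact_mod_cast hzgt.le)
      have h2 : Real.log ((z + 1 : ℕ) : ℝ) ≤ Real.log ((z ^ 2 : ℕ) : ℝ) :=
        Real.log_le_log (by positivity) (by exact_mod_cast (by nlinarith : z + 1 ≤ z ^ 2))
      rw [Nat.cast_pow, Real.log_pow] at h1 h2
      push_cast at h1 h2
      have h3 := mul_le_mul_of_nonneg_left h2 (by positivity : (0 : ℝ) ≤ 2 * b)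
      linarith
    -- blocks
    obtain ⟨F, hF⟩ : ∃ F, F = (PP u (u ^ 2)).filter (fun p => p % Q = a % Q) := ⟨_, rfl⟩
    rw [← hF]
    have hFm : ∀ p, p ∈ F ↔ ((u < p ∧ p ≤ u ^ 2) ∧ p.Prime) ∧ p % Q = a % Q := by
      intro p
      rw [hF, mem_filter, btp_mem]
    obtain ⟨J, hJ⟩ : ∃ J, J = Nat.clog 2 u := ⟨_, rfl⟩
    have hJ1 : u ≤ 2 ^ J := by rw [hJ]; exact Nat.le_pow_clog (by norm_num) u
    have hJ2 : (J : ℝ) ≤ 2 / Real.log 2 * Real.log u := by
      have h1 : 2 ^ (J - 1) < u := by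
        rw [hJ]
        exact Nat.pow_pred_clog_lt_self (by norm_num) (by omega)
      have h2 : Real.log ((2 ^ (J - 1) : ℕ) : ℝ) ≤ Real.log u :=
        Real.log_le_log (by positivity) (by exact_mod_cast h1.le)
      rw [Nat.cast_pow, Real.log_pow] at h2
      push_cast at h2
      have h3 : (J : ℝ) ≤ ((J - 1 : ℕ) : ℝ) + 1 := by
        have : J ≤ (J - 1) + 1 := by omega
        exact_mod_cast this
      have h4 : Real.log 2 ≤ Real.log u := Real.log_le_log (by norm_num) (by exact_mod_cast hu)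
      have h5 : (J : ℝ) * Real.log 2 ≤ 2 * Real.log u := by nlinarith
      calc (J : ℝ) = (J * Real.log 2) / Real.log 2 := by field_simp
        _ ≤ (2 * Real.log u) / Real.log 2 := div_le_div_of_nonneg_right h5 hl2.le
        _ = _ := by ring
    obtain ⟨g, hg⟩ : ∃ g : ℕ → ℕ, ∀ p, g p = Nat.log 2 ((p - 1) / u) := ⟨_, fun _ => rfl⟩
    have hu0 : 0 < u := by omega
    have hgp : ∀ p ∈ F, 2 ^ g p * u < p ∧ p ≤ 2 ^ (g p + 1) * u ∧ g p < J := by
      intro p hp
      have hp' := ((hFm p).1 hp).1.1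
      have h1 : (p - 1) / u ≠ 0 := by
        have : 1 ≤ (p - 1) / u := (Nat.one_le_div_iff hu0).2 (by omega)
        omega
      have h2 := Nat.pow_log_le_self 2 h1
      have h3 := Nat.lt_pow_succ_log_self (b := 2) (by norm_num) ((p - 1) / u)
      rw [← hg p] at h2 h3
      have h4 : 2 ^ g p * u ≤ p - 1 := (Nat.le_div_iff_mul_le hu0).1 h2
      have h5 : p - 1 < 2 ^ (g p + 1) * u := (Nat.div_lt_iff_lt_mul hu0).1 h3
      refine ⟨by omega, by omega, ?_⟩
      have h6 : (p - 1) / u < u := by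
        rw [Nat.div_lt_iff_lt_mul hu0]
        have : u ^ 2 = u * u := sq u
        omega
      have h7 : 2 ^ g p < 2 ^ J := by omega
      exact (Nat.pow_lt_pow_iff_right (by norm_num)).1 h7
    have hfib : ∑ j ∈ range J, ∑ p ∈ F.filter (fun p => g p = j), 1 / (p : ℝ) =
        ∑ p ∈ F, 1 / (p : ℝ) :=
      sum_fiberwise_of_maps_to (fun p hp => mem_range.2 (hgp p hp).2.2) _
    have hsum := btp_sum CM hCM z Q hz2 hQ
    have hexp : Real.exp (-∑ l ∈ (PP 6 z).filter (fun l => ¬ l ∣ Q), 1 / (l : ℝ)) ≤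
        Real.exp (CM + 1) * (1 / Real.log z) * ((Q : ℝ) / Q.totient) := by
      calc Real.exp (-∑ l ∈ (PP 6 z).filter (fun l => ¬ l ∣ Q), 1 / (l : ℝ)) ≤
          Real.exp ((CM + 1) + -LL 2 z + ∑ l ∈ Q.primeFactors, 1 / (l : ℝ)) :=
            Real.exp_le_exp.2 (by linarith)
        _ = Real.exp (CM + 1) * Real.exp (-LL 2 z) *
            Real.exp (∑ l ∈ Q.primeFactors, 1 / (l : ℝ)) := by
            rw [Real.exp_add, Real.exp_add]
        _ ≤ _ := by
            refine mul_le_mul (mul_le_mul_of_nonneg_left ?_ (Real.exp_pos _).le) (btp_tot Q hQ)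
              (Real.exp_pos _).le (by positivity)
            unfold LL
            rw [Real.exp_neg, Real.exp_log (by positivity)]
            have hlog2 : Real.log (2 : ℕ) ≤ 1 := by
              have := Real.log_two_lt_d9
              push_cast
              linarith
            rw [inv_div]
            exact div_le_div_of_nonneg_right hlog2 hlz.le
    have hblock : ∀ j ∈ range J, ∑ p ∈ F.filter (fun p => g p = j), 1 / (p : ℝ) ≤
        2 * E / (Q.totient * Real.log z) := by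
      intro j _
      have hcard := hCS z (2 ^ (j + 1) * u) Q a ((PP 6 z).filter (fun l => ¬ l ∣ Q))
        (fun _ => {0}) hz2 hQ (hzQ.trans (Nat.le_mul_of_pos_left u (by positivity)))
        (by
          intro l hl
          rw [mem_filter, btp_mem] at hl
          exact ⟨hl.1.2, by omega, hl.1.1.2, by simp, hl.2⟩)
        (F.filter (fun p => g p = j))
        (by
          intro p hp
          rw [mem_filter] at hp
          have h1 := hgp p hp.1
          rw [hp.2] at h1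
          have h2 := (hFm p).1 hp.1
          refine ⟨h1.2.1, h2.2, ?_⟩
          intro l hl h0
          rw [mem_filter, btp_mem] at hl
          rw [mem_singleton, ZMod.natCast_eq_zero_iff] at h0
          have h3 := (Nat.prime_dvd_prime_iff_eq hl.1.2 h2.1.2).1 h0
          have h4 := h2.1.1.1
          have h5 := hl.1.1.2
          omega)
      have hsum1 : ∑ l ∈ (PP 6 z).filter (fun l => ¬ l ∣ Q),
          ((({0} : Finset (ZMod l)).card : ℝ) / l) =
          ∑ l ∈ (PP 6 z).filter (fun l => ¬ l ∣ Q), 1 / (l : ℝ) :=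
        sum_congr rfl fun l _ => by simp
      rw [hsum1] at hcard
      have h2j : (0 : ℝ) < 2 ^ j * u := by positivity
      have h1 : ∑ p ∈ F.filter (fun p => g p = j), 1 / (p : ℝ) ≤
          ((F.filter (fun p => g p = j)).card : ℝ) * (1 / (2 ^ j * u)) := by
        rw [← nsmul_eq_mul]
        refine sum_le_card_nsmul _ _ _ fun p hp => ?_
        rw [mem_filter] at hp
        have h2 := (hgp p hp.1).1
        rw [hp.2] at h2
        exact one_div_le_one_div_of_le h2j (by exact_mod_cast h2.le)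
      have hQ' : (0 : ℝ) < Q := by exact_mod_cast hQ
      have h3 : ((F.filter (fun p => g p = j)).card : ℝ) ≤
          CS * (((2 ^ (j + 1) * u : ℕ) : ℝ) / Q) *
            (Real.exp (CM + 1) * (1 / Real.log z) * ((Q : ℝ) / Q.totient)) :=
        hcard.trans (mul_le_mul_of_nonneg_left hexp (by positivity))
      calc ∑ p ∈ F.filter (fun p => g p = j), 1 / (p : ℝ) ≤
          CS * (((2 ^ (j + 1) * u : ℕ) : ℝ) / Q) *
            (Real.exp (CM + 1) * (1 / Real.log z) * ((Q : ℝ) / Q.totient)) *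
            (1 / (2 ^ j * u)) :=
            h1.trans (mul_le_mul_of_nonneg_right h3 (by positivity))
        _ = 2 * E / (Q.totient * Real.log z) := by
            rw [hE]
            push_cast
            rw [pow_succ]
            field_simp
    calc ∑ p ∈ F, 1 / (p : ℝ) =
        ∑ j ∈ range J, ∑ p ∈ F.filter (fun p => g p = j), 1 / (p : ℝ) := hfib.symm
      _ ≤ ∑ _j ∈ range J, 2 * E / (Q.totient * Real.log z) := sum_le_sum hblock
      _ = J * (2 * E / (Q.totient * Real.log z)) := by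
          rw [sum_const, card_range, nsmul_eq_mul]
      _ ≤ (2 / Real.log 2 * Real.log u) * (2 * E / (Q.totient * Real.log z)) :=
          mul_le_mul_of_nonneg_right hJ2 (by positivity)
      _ ≤ (2 / Real.log 2 * (4 * b * Real.log z)) * (2 * E / (Q.totient * Real.log z)) :=
          mul_le_mul_of_nonneg_right (mul_le_mul_of_nonneg_left hluz (by positivity))
            (by positivity)
      _ = (2 * E * (4 * b) * (2 / Real.log 2)) / Q.totient := by
          field_simp
      _ ≤ ((U0 : ℝ) ^ 3 + 2 * E * (4 * b) * (2 / Real.log 2)) / Q.totient :=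
          div_le_div_of_nonneg_right (by
            have : (0 : ℝ) ≤ (U0 : ℝ) ^ 3 := by positivity
            linarith) hφ.le

end Pool.Agent.Helper17.SO
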