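import Pool.Agent.Helper17.SO.Stmts

set_option autoImplicit false

open Finset

namespace Pool.Agent.Helper17.SO

theorem low_mem {u w p : ℕ} : p ∈ PP u w ↔ (u < p ∧ p ≤ w) ∧ p.Prime := by
  unfold PP
  rw [mem_filter, mem_Ioc]

theorem low_log_pos {u : ℕ} (hu : 2 ≤ u) : 0 < Real.log u :=
  Real.log_pos (by exact_mod_cast hu)

theorem low_LL_nonneg {u w : ℕ} (hu : 2 ≤ u) (h : u ≤ w) : 0 ≤ LL u w := by
  unfold LL
  refine Real.log_nonneg ((one_le_div (low_log_pos hu)).2 (Real.log_le_log ?_ ?_))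
  · exact_mod_cast (by omega : 0 < u)
  · exact_mod_cast h

theorem low_LL_add {u v w : ℕ} (hu : 2 ≤ u) (huv : u ≤ v) (hvw : v ≤ w) :
    LL u v + LL v w = LL u w := by
  unfold LL
  have h1 := low_log_pos hu
  have h2 := low_log_pos (hu.trans huv)
  have h3 := low_log_pos (hu.trans (huv.trans hvw))
  rw [← Real.log_mul (by positivity) (by positivity)]
  congr 1
  field_simp

theorem low_rem (A T : Finset ℕ) (f : ℕ → ℝ) (c : ℝ) (hc : 0 ≤ c) (hf : ∀ l ∈ A, f l ≤ c) :
    ∑ l ∈ A, f l - c * T.card ≤ ∑ l ∈ A \ T, f l := by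
  have h1 := sum_inter_add_sum_sdiff A T f
  have h2 : ∑ l ∈ A ∩ T, f l ≤ c * T.card := by
    calc ∑ l ∈ A ∩ T, f l ≤ (A ∩ T).card • c :=
          sum_le_card_nsmul _ _ _ fun l hl => hf l (mem_inter.1 hl).1
      _ = c * ((A ∩ T).card : ℝ) := by rw [nsmul_eq_mul, mul_comm]
      _ ≤ c * T.card := mul_le_mul_of_nonneg_left
          (by exact_mod_cast card_le_card inter_subset_right) hc
  linarith

theorem low_jac (a : ℤ) (l : ℕ) : (0 : ℝ) ≤ 1 + (jacobiSym a l : ℝ) ∧
    1 + (jacobiSym a l : ℝ) ≤ 2 := by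
  rcases jacobiSym.trichotomy a l with h | h | h <;> rw [h] <;> norm_num

theorem low_d (CM CB η : ℝ) (I y z : ℕ) (T : Finset ℕ)
    (hCM : ∀ u w : ℕ, 2 ≤ u → u ≤ w → |∑ p ∈ PP u w, 1 / (p : ℝ) - LL u w| ≤ CM)
    (hCB : ∀ (T : Finset ℕ) (u w : ℕ), (∀ q ∈ T, q.Prime ∧ q ≠ 2) →
      2 ≤ u → (∏ q ∈ T, q) ^ 2 ≤ u → u ≤ w →
      ∑ p ∈ (PP u w).filter (fun p : ℕ => ∀ q ∈ T, jacobiSym (p : ℤ) q = 1), 1 / (p : ℝ) ≤
        CB / 2 ^ T.card * (LL u w + 1))
    (hCM0 : 0 ≤ CM) (hI : 1 ≤ I) (hη : 0 < η) (hBI : CB / 2 ^ I ≤ η) (hy : 2 ≤ y) (hyz : y ≤ z)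
    (hTc : T.card = I) (hT : ∀ q ∈ T, q.Prime ∧ q ≠ 2 ∧ q ≤ y) (P : ℕ → Prop) [DecidablePred P]
    (hP : ∀ l : ℕ, (∃ q ∈ T, jacobiSym (l : ℤ) q = -1) → P l) :
    (1 - η) * LL y z - (|1 - η| * Real.log (2 * I) + CM + η) ≤
      ∑ l ∈ PP y z, (if P l then 1 / (l : ℝ) else 0) := by
  classical
  obtain ⟨u, hu⟩ : ∃ u, u = y ^ (2 * I) := ⟨_, rfl⟩
  have hyu : y ≤ u := by rw [hu]; exact Nat.le_self_pow (by omega) y
  have hlogu : Real.log u = 2 * I * Real.log y := by
    rw [hu, Nat.cast_pow, Real.log_pow]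
    push_cast
    ring
  have hly := low_log_pos hy
  have hI' : (1 : ℝ) ≤ I := by exact_mod_cast hI
  have hlI : 0 ≤ Real.log (2 * I) := Real.log_nonneg (by linarith)
  have hterm : ∀ l, (0 : ℝ) ≤ (if P l then 1 / (l : ℝ) else 0) := by
    intro l
    split_ifs
    · positivity
    · exact le_refl _
  rcases le_or_gt u z with hz | hz
  · have hlz := low_log_pos (hy.trans (hyu.trans hz))
    have hLL : LL u z = LL y z - Real.log (2 * I) := by
      unfold LL
      rw [hlogu, ← Real.log_div (by positivity) (by positivity)]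
      congr 1
      field_simp
    have hu2 : 2 ≤ u := hy.trans hyu
    have hLu := low_LL_nonneg hu2 hz
    have hprod : (∏ q ∈ T, q) ^ 2 ≤ u := by
      have h1 : ∏ q ∈ T, q ≤ y ^ I := by
        rw [← hTc]
        exact prod_le_pow_card T (fun q => q) y fun q hq => (hT q hq).2.2
      calc (∏ q ∈ T, q) ^ 2 ≤ (y ^ I) ^ 2 := Nat.pow_le_pow_left h1 2
        _ = u := by rw [hu, ← pow_mul, mul_comm]
    have h1 := hCB T u z (fun q hq => ⟨(hT q hq).1, (hT q hq).2.1⟩) hu2 hprod hz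
    rw [hTc] at h1
    have h2 : CB / 2 ^ I * (LL u z + 1) ≤ η * (LL u z + 1) :=
      mul_le_mul_of_nonneg_right hBI (by linarith)
    have h3 := (abs_le.1 (hCM u z hu2 hz)).1
    have h4 := sum_filter_add_sum_filter_not (PP u z)
      (fun p : ℕ => ∀ q ∈ T, jacobiSym (p : ℤ) q = 1) (fun p => 1 / (p : ℝ))
    have h5 : ∑ p ∈ (PP u z).filter (fun p : ℕ => ¬ ∀ q ∈ T, jacobiSym (p : ℤ) q = 1),
        1 / (p : ℝ) ≤ ∑ l ∈ PP u z, (if P l then 1 / (l : ℝ) else 0) := by
      rw [sum_filter]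
      refine sum_le_sum fun l hl => ?_
      by_cases hc : ∀ q ∈ T, jacobiSym (l : ℤ) q = 1
      · rw [if_neg (fun h => h hc)]
        exact hterm l
      · rw [if_pos hc, if_pos]
        apply hP
        push Not at hc
        obtain ⟨q, hq, hne⟩ := hc
        refine ⟨q, hq, ?_⟩
        have hcop : Int.gcd (l : ℤ) (q : ℤ) = 1 := by
          rw [Int.gcd_natCast_natCast]
          rw [low_mem] at hl
          refine (Nat.coprime_primes hl.2 (hT q hq).1).2 ?_
          have := (hT q hq).2.2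
          omega
        rcases jacobiSym.eq_one_or_neg_one hcop with h | h
        · exact absurd h hne
        · exact h
    have h6 : ∑ l ∈ PP u z, (if P l then 1 / (l : ℝ) else 0) ≤
        ∑ l ∈ PP y z, (if P l then 1 / (l : ℝ) else 0) := by
      refine sum_le_sum_of_subset_of_nonneg ?_ fun l _ _ => hterm l
      intro l hl
      rw [low_mem] at hl ⊢
      exact ⟨⟨by omega, hl.1.2⟩, hl.2⟩
    have h7 : (1 - η) * Real.log (2 * I) ≤ |1 - η| * Real.log (2 * I) :=
      mul_le_mul_of_nonneg_right (le_abs_self _) hlI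
    rw [hLL] at h2 h3 h1
    nlinarith
  · have hlz := low_log_pos (hy.trans hyz)
    have h1 : LL y z ≤ Real.log (2 * I) := by
      unfold LL
      refine Real.log_le_log (by positivity) ?_
      rw [div_le_iff₀ hly, ← hlogu]
      exact Real.log_le_log (by exact_mod_cast (by omega : 0 < z)) (by exact_mod_cast hz.le)
    have h2 := low_LL_nonneg hy hyz
    have h3 : (1 - η) * LL y z ≤ |1 - η| * Real.log (2 * I) :=
      (mul_le_mul_of_nonneg_right (le_abs_self _) h2).trans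
        (mul_le_mul_of_nonneg_left h1 (abs_nonneg _))
    have h4 : 0 ≤ ∑ l ∈ PP y z, (if P l then 1 / (l : ℝ) else 0) :=
      sum_nonneg fun l _ => hterm l
    linarith

theorem st_LOW (hM : ST_MER) (hA : ST_DENA) (hB : ST_DENB) (hC : ST_DENC) (hT : ST_BTI) :
    ST_LOW := by
  classical
  intro lam η hlam hη
  obtain ⟨CM, hCM0, hCM⟩ := hM
  obtain ⟨CA, hCA0, hCA⟩ := hA lam hlam
  obtain ⟨CB, hCB0, hCB⟩ := hT
  obtain ⟨Cc, hCc0, hCc⟩ : ∃ Cc : ℝ, 0 ≤ Cc ∧ ∀ τ : ℤ, (τ = 1 ∨ τ = -1) → ∀ u w : ℕ, 2 ≤ u →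
      u ≤ w → kap lam * LL u w - Cc ≤
        ∑ p ∈ PP u w, (if jacobiSym (τ * lam) p = -1 then 1 / (p : ℝ) else 0) := by
    by_cases hsq : IsSquare lam
    · refine ⟨0, le_refl _, fun τ _ u w _ _ => ?_⟩
      have hk : kap lam = 0 := by unfold kap; rw [if_pos hsq]
      rw [hk, zero_mul, sub_zero]
      refine sum_nonneg fun l _ => ?_
      split_ifs
      · positivity
      · exact le_refl _
    · have hk : kap lam = 1 / 8 := by unfold kap; rw [if_neg hsq]
      have hs1 : ¬ IsSquare ((1 : ℤ) * lam) := by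
        rw [one_mul]
        rwa [Int.isSquare_natCast_iff]
      have hs2 : ¬ IsSquare ((-1 : ℤ) * lam) := by
        rintro ⟨r, hr⟩
        have h1 : 0 ≤ r * r := mul_self_nonneg r
        have h2 : (1 : ℤ) ≤ lam := by exact_mod_cast hlam
        linarith
      obtain ⟨C1, hC10, hC1⟩ := hB _ hs1
      obtain ⟨C2, hC20, hC2⟩ := hB _ hs2
      refine ⟨C1 + C2, by linarith, fun τ hτ u w hu huw => ?_⟩
      have hL := low_LL_nonneg hu huw
      rw [hk]
      rcases hτ with h | h <;> subst h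
      · have h3 := hC1 u w hu huw
        rw [sum_filter] at h3
        linarith
      · have h3 := hC2 u w hu huw
        rw [sum_filter] at h3
        linarith
  obtain ⟨Cb, hCb0, hCb⟩ : ∃ Cb : ℝ, 0 ≤ Cb ∧ ∀ u w : ℕ, 2 ≤ u → u ≤ w →
      kap lam * LL u w - Cb ≤ ∑ p ∈ PP u w, (if cond2 lam p then 1 / (p : ℝ) else 0) := by
    by_cases hsq : IsSquare lam
    · refine ⟨0, le_refl _, fun u w _ _ => ?_⟩
      have hk : kap lam = 0 := by unfold kap; rw [if_pos hsq]
      rw [hk, zero_mul, sub_zero]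
      refine sum_nonneg fun l _ => ?_
      split_ifs
      · positivity
      · exact le_refl _
    · have hk : kap lam = 1 / 8 := by unfold kap; rw [if_neg hsq]
      obtain ⟨C1, hC10, hC1⟩ := hC lam hlam hsq
      refine ⟨C1, hC10, fun u w hu huw => ?_⟩
      have h3 := hC1 u w hu huw
      rw [sum_filter] at h3
      rw [hk]
      have h4 : ∑ p ∈ PP u w, (if p % 4 = 1 ∧ jacobiSym (1 - 4 * (lam : ℤ)) p = 1 ∧
          jacobiSym (lam : ℤ) p = -1 then 1 / (p : ℝ) else 0) =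
          ∑ p ∈ PP u w, (if cond2 lam p then 1 / (p : ℝ) else 0) := by
        refine sum_congr rfl fun p _ => ?_
        by_cases hc : cond2 lam p
        · have hc' : p % 4 = 1 ∧ jacobiSym (1 - 4 * (lam : ℤ)) p = 1 ∧
            jacobiSym (lam : ℤ) p = -1 := hc
          rw [if_pos hc, if_pos hc']
        · have hc' : ¬ (p % 4 = 1 ∧ jacobiSym (1 - 4 * (lam : ℤ)) p = 1 ∧
            jacobiSym (lam : ℤ) p = -1) := hc
          rw [if_neg hc, if_neg hc']
      rw [h4] at h3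
      linarith
  obtain ⟨n, hn⟩ := pow_unbounded_of_one_lt (CB / η) (by norm_num : (1 : ℝ) < 2)
  obtain ⟨I, hI⟩ : ∃ I, I = n + 1 := ⟨_, rfl⟩
  have hI1 : 1 ≤ I := by omega
  have hBI : CB / 2 ^ I ≤ η := by
    rw [div_le_iff₀ (by positivity)]
    rw [div_lt_iff₀ hη] at hn
    have : (2 : ℝ) ^ n ≤ 2 ^ I := pow_le_pow_right₀ (by norm_num) (by omega)
    nlinarith
  have hlI : 0 ≤ Real.log (2 * I) := Real.log_nonneg (by
    have : (1 : ℝ) ≤ I := by exact_mod_cast hI1
    linarith)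
  refine ⟨I, CA + 2 * I + (Cc + I) + Cb + (|1 - η| * Real.log (2 * I) + CM + η), hI1,
    by positivity, ?_⟩
  intro w z T τ hw hwz hTs hTc hτ
  have hw2 : 2 ≤ w := by omega
  obtain ⟨y, hy⟩ : ∃ y, y = yT I T z := ⟨_, rfl⟩
  have hTle : T.card = I → (∀ q ∈ T, q ≤ y) ∧ w ≤ y ∧ y ≤ z := by
    intro hc
    have hy' : y = T.sup id := by rw [hy]; unfold yT; rw [if_pos hc]
    have h1 : ∀ q ∈ T, q ≤ y := fun q hq => by rw [hy']; exact le_sup (f := id) hq
    refine ⟨h1, ?_, ?_⟩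
    · have hne : T.Nonempty := by
        rw [← card_pos]
        omega
      obtain ⟨q, hq⟩ := hne
      have h2 := (low_mem.1 (hTs hq)).1.1
      have h3 := h1 q hq
      omega
    · rw [hy']
      exact Finset.sup_le fun q hq => (low_mem.1 (hTs hq)).1.2
  have hyz' : T.card ≠ I → y = z := by
    intro hc
    rw [hy]
    unfold yT
    rw [if_neg hc]
  have hwy : w ≤ y := by
    by_cases hc : T.card = I
    · exact (hTle hc).2.1
    · rw [hyz' hc]; exact hwz
  have hyz : y ≤ z := by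
    by_cases hc : T.card = I
    · exact (hTle hc).2.2
    · rw [hyz' hc]
  have hsplit := sum_filter_add_sum_filter_not (PP w z \ T) (fun l => l ≤ y)
    (fun l => gw lam I T τ z l / l)
  have hf1 : (PP w z \ T).filter (fun l => l ≤ y) = PP w y \ T := by
    ext l
    rw [mem_filter, mem_sdiff, mem_sdiff, low_mem, low_mem]
    constructor
    · rintro ⟨⟨⟨⟨h1, h2⟩, h3⟩, h4⟩, h5⟩
      exact ⟨⟨⟨h1, h5⟩, h3⟩, h4⟩
    · rintro ⟨⟨⟨h1, h2⟩, h3⟩, h4⟩
      exact ⟨⟨⟨⟨h1, h2.trans hyz⟩, h3⟩, h4⟩, h2⟩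
  have hf2 : (PP w z \ T).filter (fun l => ¬ l ≤ y) = PP y z := by
    ext l
    rw [mem_filter, mem_sdiff, low_mem, low_mem]
    constructor
    · rintro ⟨⟨⟨⟨h1, h2⟩, h3⟩, h4⟩, h5⟩
      exact ⟨⟨by omega, h2⟩, h3⟩
    · rintro ⟨⟨h1, h2⟩, h3⟩
      refine ⟨⟨⟨⟨by omega, h2⟩, h3⟩, ?_⟩, by omega⟩
      intro hlT
      by_cases hc : T.card = I
      · have := (hTle hc).1 l hlT
        omega
      · have := hyz' hc
        omega
  rw [hf1, hf2] at hsplit
  -- first part
  have hp1 : ∑ l ∈ PP w y \ T, (1 + (jacobiSym (1 - 4 * (lam : ℤ)) l : ℝ)) / l +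
      ∑ l ∈ PP w y \ T, (if jacobiSym (τ * lam) l = -1 then 1 / (l : ℝ) else 0) ≤
      ∑ l ∈ PP w y \ T, gw lam I T τ z l / l := by
    rw [← sum_add_distrib]
    refine sum_le_sum fun l hl => ?_
    rw [mem_sdiff, low_mem] at hl
    have hly : l ≤ yT I T z := by rw [← hy]; exact hl.1.1.2
    unfold gw
    rw [if_pos hly, add_div (1 + (jacobiSym (1 - 4 * (lam : ℤ)) l : ℝ))]
    refine add_le_add (le_refl _) ?_
    by_cases hj : jacobiSym (τ * lam) l = -1
    · have hj' : cond3 lam I T τ l := Or.inl hj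
      rw [if_pos hj, if_pos hj']
    · rw [if_neg hj]
      split_ifs
      · positivity
      · simp
  have hp2 : ∑ l ∈ PP y z, (if cond2 lam l then 1 / (l : ℝ) else 0) +
      ∑ l ∈ PP y z, (if cond3 lam I T τ l then 1 / (l : ℝ) else 0) =
      ∑ l ∈ PP y z, gw lam I T τ z l / l := by
    rw [← sum_add_distrib]
    refine sum_congr rfl fun l hl => ?_
    rw [low_mem] at hl
    have hly : ¬ l ≤ yT I T z := by rw [← hy]; omega
    unfold gw
    rw [if_neg hly, add_div]
    congr 1 <;> split_ifs <;> simp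
  have ha : LL w y - CA - 2 * I ≤
      ∑ l ∈ PP w y \ T, (1 + (jacobiSym (1 - 4 * (lam : ℤ)) l : ℝ)) / l := by
    have h1 := low_rem (PP w y) T (fun l => (1 + (jacobiSym (1 - 4 * (lam : ℤ)) l : ℝ)) / l) 2
      (by norm_num) (fun l hl => by
        rw [low_mem] at hl
        have h2 := low_jac (1 - 4 * (lam : ℤ)) l
        have h3 : (1 : ℝ) ≤ l := by exact_mod_cast hl.2.one_lt.le
        rw [div_le_iff₀ (by linarith)]
        nlinarith)
    have h2 := hCA w y hw2 hwy
    have h3 : (T.card : ℝ) ≤ I := by exact_mod_cast hTc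
    linarith
  have hc : kap lam * LL w y - Cc - I ≤
      ∑ l ∈ PP w y \ T, (if jacobiSym (τ * lam) l = -1 then 1 / (l : ℝ) else 0) := by
    have h1 := low_rem (PP w y) T
      (fun l => if jacobiSym (τ * lam) l = -1 then 1 / (l : ℝ) else 0) 1
      (by norm_num) (fun l hl => by
        rw [low_mem] at hl
        have h3 : (1 : ℝ) ≤ l := by exact_mod_cast hl.2.one_lt.le
        show (if jacobiSym (τ * lam) l = -1 then 1 / (l : ℝ) else 0) ≤ 1
        split_ifs
        · rw [div_le_iff₀ (by linarith)]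
          linarith
        · norm_num)
    have h2 := hCc τ hτ w y hw2 hwy
    have h3 : (T.card : ℝ) ≤ I := by exact_mod_cast hTc
    linarith
  have hb := hCb y z (hw2.trans hwy) hyz
  have hd : (1 - η) * LL y z - (|1 - η| * Real.log (2 * I) + CM + η) ≤
      ∑ l ∈ PP y z, (if cond3 lam I T τ l then 1 / (l : ℝ) else 0) := by
    by_cases hcI : T.card = I
    · exact low_d CM CB η I y z T hCM hCB hCM0 hI1 hη hBI (hw2.trans hwy) hyz hcI
        (fun q hq => by
          have h1 := low_mem.1 (hTs hq)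
          exact ⟨h1.2, by omega, (hTle hcI).1 q hq⟩) (fun l => cond3 lam I T τ l)
        (fun l hl => Or.inr ⟨hcI, hl⟩)
    · have h1 : LL y z = 0 := by
        rw [hyz' hcI]
        unfold LL
        rw [div_self (low_log_pos (hw2.trans hwz)).ne', Real.log_one]
      have h2 : 0 ≤ ∑ l ∈ PP y z, (if cond3 lam I T τ l then 1 / (l : ℝ) else 0) := by
        refine sum_nonneg fun l _ => ?_
        split_ifs
        · positivity
        · exact le_refl _
      rw [h1]
      have h3 : 0 ≤ |1 - η| * Real.log (2 * I) := mul_nonneg (abs_nonneg _) hlI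
      linarith
  have hadd := low_LL_add hw2 hwy hyz
  have hLwy := low_LL_nonneg hw2 hwy
  have hfin : (1 + kap lam - η) * LL w z ≤
      LL w y + kap lam * LL w y + kap lam * LL y z + (1 - η) * LL y z := by
    rw [← hadd]
    nlinarith
  rw [← hsplit, ← hp2]
  linarith

end Pool.Agent.Helper17.SO
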